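import Pool.Agent.Y262.EG.Stm

set_option autoImplicit false

open Set Filter Topology MeasureTheory
open scoped ContDiff

namespace Pool.Agent.Y257.EG2
open Pool.Agent.Y262.EG

lemma integral_fderiv_zero {g : Y → ℝ} (hg : ContDiff ℝ 1 g) (hc : HasCompactSupport g) (e : Y) :
    Integrable (fun p => fderiv ℝ g p e) ∧ ∫ p, fderiv ℝ g p e = 0 := by
  have hc' : HasCompactSupport (fun p => fderiv ℝ g p e) := hc.fderiv_apply ℝ e
  have hcont : Continuous (fun p => fderiv ℝ g p e) :=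
    (hg.continuous_fderiv (by norm_num)).clm_apply continuous_const
  have hi : Integrable (fun p => fderiv ℝ g p e) := hcont.integrable_of_hasCompactSupport hc'
  have hgi : Integrable g := hg.continuous.integrable_of_hasCompactSupport hc
  refine ⟨hi, ?_⟩
  haveI : (volume : Measure Y).IsAddHaarMeasure := by
    rw [Measure.volume_eq_prod]; infer_instance
  have h := integral_mul_fderiv_eq_neg_fderiv_mul_of_integrable (μ := (volume : Measure Y))
    (f := fun _ : Y => (1 : ℝ)) (g := g) (v := e) (by simp) (by simpa using hi) (by simpa using hgi)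
    (fun x _ => by fun_prop) (fun x _ => hg.differentiable (by norm_num) x)
  simpa using h

/-- extension by zero -/
lemma ext_mul {Ω : Set ℂ} (hΩ : IsOpen Ω) {A u : Y → ℝ} (hA : ContDiffOn ℝ 1 A (YO Ω))
    (hu : ContDiff ℝ 1 u) (hs : tsupport u ⊆ YO Ω) : ContDiff ℝ 1 (fun p => A p * u p) := by
  have hYO : IsOpen (YO Ω) := hΩ.preimage continuous_fst
  rw [contDiff_iff_contDiffAt]
  intro p
  by_cases hp : p ∈ tsupport u
  · exact ((hA.contDiffAt (hYO.mem_nhds (hs hp))).mul hu.contDiffAt)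
  · have h0 : (fun p => A p * u p) =ᶠ[𝓝 p] fun _ => 0 := by
      filter_upwards [(isClosed_tsupport u).isOpen_compl.mem_nhds hp] with y hy
      rw [image_eq_zero_of_notMem_tsupport hy, mul_zero]
    exact contDiffAt_const.congr_of_eventuallyEq h0

lemma ibp0 {Ω : Set ℂ} (hΩ : IsOpen Ω) {A u : Y → ℝ} (hA : ContDiffOn ℝ 1 A (YO Ω))
    (hu : ContDiff ℝ 1 u) (hcs : HasCompactSupport u) (hs : tsupport u ⊆ YO Ω) (e : Y) :
    Integrable (fun p => fderiv ℝ A p e * u p + A p * fderiv ℝ u p e) ∧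
      ∫ p, (fderiv ℝ A p e * u p + A p * fderiv ℝ u p e) = 0 := by
  have hYO : IsOpen (YO Ω) := hΩ.preimage continuous_fst
  have hg := ext_mul hΩ hA hu hs
  have hc : HasCompactSupport (fun p => A p * u p) := hcs.mul_left
  have h := integral_fderiv_zero hg hc e
  have e1 : (fun p => fderiv ℝ (fun p => A p * u p) p e) =
      fun p => fderiv ℝ A p e * u p + A p * fderiv ℝ u p e := by
    funext p
    by_cases hp : p ∈ tsupport u
    · have hA' : DifferentiableAt ℝ A p :=
        (hA.contDiffAt (hYO.mem_nhds (hs hp))).differentiableAt (by norm_num)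
      have hu' : DifferentiableAt ℝ u p := hu.differentiable (by norm_num) p
      rw [fderiv_fun_mul hA' hu']
      simp
      ring
    · have h0 : (fun p => A p * u p) =ᶠ[𝓝 p] fun _ => 0 := by
        filter_upwards [(isClosed_tsupport u).isOpen_compl.mem_nhds hp] with y hy
        rw [image_eq_zero_of_notMem_tsupport hy, mul_zero]
      have h1 : u =ᶠ[𝓝 p] fun _ => 0 := by
        filter_upwards [(isClosed_tsupport u).isOpen_compl.mem_nhds hp] with y hy
        rw [image_eq_zero_of_notMem_tsupport hy]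
      rw [h0.fderiv_eq, h1.fderiv_eq, h1.self_of_nhds]
      simp
  rw [e1] at h
  exact h

lemma div3 {Ω : Set ℂ} (hΩ : IsOpen Ω) {A B D u : Y → ℝ} (hA : ContDiffOn ℝ 1 A (YO Ω))
    (hB : ContDiffOn ℝ 1 B (YO Ω)) (hD : ContDiffOn ℝ 1 D (YO Ω))
    (hdiv : ∀ p ∈ YO Ω, fderiv ℝ A p (1, 0) + fderiv ℝ B p (Complex.I, 0) +
      fderiv ℝ D p (0, 1) = 0)
    (hu : ContDiff ℝ 1 u) (hcs : HasCompactSupport u) (hs : tsupport u ⊆ YO Ω) :
    ∫ p, (A p * fderiv ℝ u p (1, 0) + B p * fderiv ℝ u p (Complex.I, 0) +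
      D p * fderiv ℝ u p (0, 1)) = 0 := by
  obtain ⟨a1, a2⟩ := ibp0 hΩ hA hu hcs hs (1, 0)
  obtain ⟨b1, b2⟩ := ibp0 hΩ hB hu hcs hs (Complex.I, 0)
  obtain ⟨d1, d2⟩ := ibp0 hΩ hD hu hcs hs (0, 1)
  have h : ∫ p, ((fderiv ℝ A p (1, 0) * u p + A p * fderiv ℝ u p (1, 0)) +
      (fderiv ℝ B p (Complex.I, 0) * u p + B p * fderiv ℝ u p (Complex.I, 0)) +
      (fderiv ℝ D p (0, 1) * u p + D p * fderiv ℝ u p (0, 1))) = 0 := by
    have ab : Integrable (fun p => (fderiv ℝ A p (1, 0) * u p + A p * fderiv ℝ u p (1, 0)) +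
      (fderiv ℝ B p (Complex.I, 0) * u p + B p * fderiv ℝ u p (Complex.I, 0))) := a1.add b1
    rw [integral_add ab d1, integral_add a1 b1, a2, b2, d2]
    simp
  refine Eq.trans ?_ h
  refine integral_congr_ae (Eventually.of_forall fun p => ?_)
  simp only
  by_cases hp : p ∈ YO Ω
  · have := hdiv p hp
    linear_combination (-(u p)) * this
  · have : u p = 0 := image_eq_zero_of_notMem_tsupport fun h => hp (hs h)
    rw [this]
    ring

lemma px_smooth {Ω : Set ℂ} {φ : ℂ → ℝ} (hΩ : IsOpen Ω) (hφ : ContDiffOn ℝ ∞ φ Ω) :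
    ContDiffOn ℝ ∞ (px φ) Ω ∧ ContDiffOn ℝ ∞ (py φ) Ω := by
  have h : ContDiffOn ℝ ∞ (fderiv ℝ φ) Ω := hφ.fderiv_of_isOpen hΩ (by simp)
  exact ⟨h.clm_apply contDiffOn_const, h.clm_apply contDiffOn_const⟩

lemma fst_smooth {Ω : Set ℂ} {f : ℂ → ℝ} (h : ContDiffOn ℝ ∞ f Ω) :
    ContDiffOn ℝ ∞ (fun p : Y => f p.1) (YO Ω) :=
  h.comp contDiffOn_fst (fun _ hp => hp)

lemma fst_der {Ω : Set ℂ} {f : ℂ → ℝ} (hΩ : IsOpen Ω) (h : ContDiffOn ℝ ∞ f Ω) {p : Y}
    (hp : p ∈ YO Ω) : HasFDerivAt (fun p : Y => f p.1)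
      ((fderiv ℝ f p.1).comp (ContinuousLinearMap.fst ℝ ℂ ℝ)) p := by
  have h1 : DifferentiableAt ℝ f p.1 := (h.contDiffAt (hΩ.mem_nhds hp)).differentiableAt (by simp)
  exact h1.hasFDerivAt.comp p hasFDerivAt_fst

lemma mkY (a b d : ℝ) : (((⟨a, b⟩ : ℂ), d) : Y) = a • ((1, 0) : Y) + b • ((Complex.I, 0) : Y) +
    d • ((0, 1) : Y) := by
  apply Prod.ext
  · apply Complex.ext <;> simp
  · simp

theorem divUp : StFrame → StDivUp := by
  intro _ Ω φ hΩ hφ W hW u hu hcs hs
  obtain ⟨hpx, hpy⟩ := px_smooth hΩ hφ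
  have sφ := fst_smooth hφ
  have sx := fst_smooth hpx
  have sy := fst_smooth hpy
  have sc : ContDiff ℝ ∞ (fun p : Y => Real.cos p.2) := Real.contDiff_cos.comp contDiff_snd
  have ss : ContDiff ℝ ∞ (fun p : Y => Real.sin p.2) := Real.contDiff_sin.comp contDiff_snd
  have dc : ∀ p : Y, HasFDerivAt (fun p : Y => Real.cos p.2)
      (-Real.sin p.2 • ContinuousLinearMap.snd ℝ ℂ ℝ) p := fun p => hasFDerivAt_snd.cos
  have ds : ∀ p : Y, HasFDerivAt (fun p : Y => Real.sin p.2)
      (Real.cos p.2 • ContinuousLinearMap.snd ℝ ℂ ℝ) p := fun p => hasFDerivAt_snd.sin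
  have hexp : ∀ x : ℝ, Real.exp (-x) * Real.exp (2 * x) = Real.exp x := by
    intro x; rw [← Real.exp_add]; congr 1; ring
  rcases hW with rfl | rfl | rfl
  · have h := div3 hΩ (A := fun p : Y => Real.exp (φ p.1) * Real.cos p.2)
      (B := fun p : Y => Real.exp (φ p.1) * Real.sin p.2)
      (D := fun p : Y => Real.exp (φ p.1) * (-(px φ p.1) * Real.sin p.2 + py φ p.1 * Real.cos p.2))
      (u := u) ((sφ.exp.mul sc.contDiffOn).of_le (by simp)) ((sφ.exp.mul ss.contDiffOn).of_le (by simp))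
      ((sφ.exp.mul ((sx.neg.mul ss.contDiffOn).add (sy.mul sc.contDiffOn))).of_le (by simp))
      ?_ hu hcs hs
    · refine Eq.trans ?_ h
      refine integral_congr_ae (Eventually.of_forall fun p => ?_)
      simp only
      have e1 : XX φ p = (Real.exp (-φ p.1) * Real.cos p.2) • ((1, 0) : Y) +
          (Real.exp (-φ p.1) * Real.sin p.2) • ((Complex.I, 0) : Y) +
          (Real.exp (-φ p.1) * (-(px φ p.1) * Real.sin p.2 + py φ p.1 * Real.cos p.2)) •
            ((0, 1) : Y) := mkY _ _ _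
      rw [e1, map_add, map_add, map_smul, map_smul, map_smul, smul_eq_mul, smul_eq_mul, smul_eq_mul,
        ← hexp (φ p.1)]
      ring
    · intro p hp
      have f1 := fst_der hΩ hφ hp
      have f2 := fst_der hΩ hpx hp
      have f3 := fst_der hΩ hpy hp
      have dA := (f1.exp.mul (dc p)).fderiv
      have dB := (f1.exp.mul (ds p)).fderiv
      have dD := (f1.exp.mul ((f2.neg.mul (ds p)).add (f3.mul (dc p)))).fderiv
      simp only [Pi.mul_def, Pi.add_def, Pi.neg_def] at dA dB dD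
      rw [dA, dB, dD]
      simp [px, py]
      ring
  · have h := div3 hΩ (A := fun p : Y => -(Real.exp (φ p.1) * Real.sin p.2))
      (B := fun p : Y => Real.exp (φ p.1) * Real.cos p.2)
      (D := fun p : Y => -(Real.exp (φ p.1) * (px φ p.1 * Real.cos p.2 + py φ p.1 * Real.sin p.2)))
      (u := u) ((sφ.exp.mul ss.contDiffOn).neg.of_le (by simp)) ((sφ.exp.mul sc.contDiffOn).of_le (by simp))
      ((sφ.exp.mul ((sx.mul sc.contDiffOn).add (sy.mul ss.contDiffOn))).neg.of_le (by simp))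
      ?_ hu hcs hs
    · refine Eq.trans ?_ h
      refine integral_congr_ae (Eventually.of_forall fun p => ?_)
      simp only
      have e1 : HH φ p = (-(Real.exp (-φ p.1) * Real.sin p.2)) • ((1, 0) : Y) +
          (Real.exp (-φ p.1) * Real.cos p.2) • ((Complex.I, 0) : Y) +
          (-(Real.exp (-φ p.1) * (px φ p.1 * Real.cos p.2 + py φ p.1 * Real.sin p.2))) •
            ((0, 1) : Y) := mkY _ _ _
      rw [e1, map_add, map_add, map_smul, map_smul, map_smul, smul_eq_mul, smul_eq_mul, smul_eq_mul,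
        ← hexp (φ p.1)]
      ring
    · intro p hp
      have f1 := fst_der hΩ hφ hp
      have f2 := fst_der hΩ hpx hp
      have f3 := fst_der hΩ hpy hp
      have dA := (f1.exp.mul (ds p)).neg.fderiv
      have dB := (f1.exp.mul (dc p)).fderiv
      have dD := (f1.exp.mul ((f2.mul (dc p)).add (f3.mul (ds p)))).neg.fderiv
      simp only [Pi.mul_def, Pi.add_def, Pi.neg_def] at dA dB dD
      rw [dA, dB, dD]
      simp [px, py]
      ring
  · have h := div3 hΩ (A := fun _ : Y => (0 : ℝ)) (B := fun _ : Y => (0 : ℝ))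
      (D := fun p : Y => Real.exp (2 * φ p.1))
      (u := u) contDiffOn_const contDiffOn_const
      (((contDiffOn_const.mul sφ).exp).of_le (by simp)) ?_ hu hcs hs
    · refine Eq.trans ?_ h
      refine integral_congr_ae (Eventually.of_forall fun p => ?_)
      simp only [VV]
      ring
    · intro p hp
      have f1 := fst_der hΩ hφ hp
      have dD := (f1.const_mul 2).exp.fderiv
      rw [dD]
      simp

end Pool.Agent.Y257.EG2
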