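import Pool.Agent.Y262.EG.Stm

set_option autoImplicit false

open Set Filter Topology MeasureTheory
open scoped ContDiff

namespace Pool.Agent.Y257.EG2
open Pool.Agent.Y262.EG

theorem et : StGerm → StEt := by
  intro hGerm M P _ _ _ _ Ω φ pr q hT
  have hpr : ∀ p ∈ YO Ω, ∀ p' ∈ YO Ω, q p = q p' → pr p.1 = pr p'.1 := by
    intro p hp p' hp' h
    obtain ⟨r, γ, hr, _, _, h1, h2, _⟩ := (hT.rel p hp p' hp').1 h
    have := (h2 p.1 (Metric.mem_ball_self hr)).2.1
    rw [h1] at this
    exact this.symm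
  refine ⟨fun p hp => ?_, hpr, fun p hp p' hp' h => ?_⟩
  · obtain ⟨r0, hr0, hb, hinj⟩ := hT.injp p.1 hp
    have hfst : ∀ y ∈ Metric.ball p (min r0 1), y.1 ∈ Metric.ball p.1 r0 := by
      intro y hy
      rw [Metric.mem_ball, Prod.dist_eq] at hy
      exact lt_of_le_of_lt (le_max_left _ _) (lt_of_lt_of_le hy (min_le_left _ _))
    have hsnd : ∀ y ∈ Metric.ball p (min r0 1), |y.2 - p.2| < 1 := by
      intro y hy
      rw [Metric.mem_ball, Prod.dist_eq] at hy
      have := lt_of_le_of_lt (le_max_right _ _) (lt_of_lt_of_le hy (min_le_right _ _))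
      rwa [Real.dist_eq] at this
    refine ⟨min r0 1, lt_min hr0 one_pos, fun y hy => hb (hfst y hy), ?_⟩
    intro p1 h1 p2 h2 h12
    have m1 : p1 ∈ YO Ω := hb (hfst p1 h1)
    have m2 : p2 ∈ YO Ω := hb (hfst p2 h2)
    have e1 : p1.1 = p2.1 := hinj (hfst p1 h1) (hfst p2 h2) (hpr p1 m1 p2 m2 h12)
    obtain ⟨r1, γ, hr1, hb1, hd1, hγ, hloc, hang⟩ := (hT.rel p1 m1 p2 m2).1 h12
    have hγc : ContinuousAt γ p1.1 :=
      (hd1.differentiableAt (Metric.ball_mem_nhds _ hr1)).continuousAt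
    have hγid : γ =ᶠ[𝓝 p1.1] fun z => z := by
      have n1 : ∀ᶠ z in 𝓝 p1.1, γ z ∈ Metric.ball p.1 r0 := by
        refine hγc.eventually (Metric.isOpen_ball.mem_nhds ?_)
        rw [hγ]
        exact hfst p2 h2
      have n2 : ∀ᶠ z in 𝓝 p1.1, z ∈ Metric.ball p.1 r0 := Metric.isOpen_ball.mem_nhds (hfst p1 h1)
      have n3 : ∀ᶠ z in 𝓝 p1.1, z ∈ Metric.ball p1.1 r1 := Metric.ball_mem_nhds _ hr1
      filter_upwards [n1, n2, n3] with z a1 a2 a3
      exact hinj a1 a2 (hloc z a3).2.1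
    have hder : deriv γ p1.1 = 1 := by
      rw [hγid.deriv_eq]
      simp
    rw [hder] at hang
    simp only [norm_one, Complex.ofReal_one, mul_one] at hang
    rw [Complex.exp_eq_exp_iff_exists_int] at hang
    obtain ⟨n, hn⟩ := hang
    have hn' : p2.2 = p1.2 + n * (2 * Real.pi) := by
      have h3 : ((p2.2 : ℂ)) * Complex.I = ((p1.2 + n * (2 * Real.pi) : ℝ) : ℂ) * Complex.I := by
        rw [hn]; push_cast; ring
      have h4 := mul_right_cancel₀ Complex.I_ne_zero h3
      exact_mod_cast h4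
    have s1 := hsnd p1 h1
    have s2 := hsnd p2 h2
    have hpi := Real.pi_gt_three
    rw [abs_lt] at s1 s2
    have hn0 : n = 0 := by
      have b1 : (n : ℝ) * (2 * Real.pi) < 2 := by linarith [s1.1, s2.2]
      have b2 : -2 < (n : ℝ) * (2 * Real.pi) := by linarith [s1.2, s2.1]
      by_contra hne
      rcases lt_or_gt_of_ne hne with hlt | hgt
      · have : (n : ℝ) ≤ -1 := by exact_mod_cast (by omega : n ≤ -1)
        nlinarith
      · have : (1 : ℝ) ≤ n := by exact_mod_cast (by omega : 1 ≤ n)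
        nlinarith
    rw [hn0] at hn'
    refine Prod.ext e1 ?_
    rw [hn']
    simp
  · obtain ⟨r, γ, hr, hb, hd, hγ, hloc, hang⟩ := (hT.rel p hp p' hp').1 h
    obtain ⟨hcurv, hframe⟩ := hGerm Ω φ p.1 r γ hT.opn hT.smooth hr hb hd
      (fun ζ hζ => ⟨(hloc ζ hζ).1, (hloc ζ hζ).2.2.1, (hloc ζ hζ).2.2.2⟩)
    obtain ⟨r', τ, hr', hrr, hτ0, hτ, hsm, hfr⟩ := hframe (p'.2 - p.2) (by
      have e1 : Complex.exp (((p'.2 - p.2 : ℝ) : ℂ) * Complex.I) =
          Complex.exp (p'.2 * Complex.I) * (Complex.exp (p.2 * Complex.I))⁻¹ := by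
        rw [← Complex.exp_neg, ← Complex.exp_add]
        congr 1
        push_cast; ring
      rw [e1]
      have e2 := Complex.exp_ne_zero (p.2 * Complex.I)
      calc Complex.exp (p'.2 * Complex.I) * (Complex.exp (p.2 * Complex.I))⁻¹ * ‖deriv γ p.1‖
          = (Complex.exp (p'.2 * Complex.I) * ‖deriv γ p.1‖) * (Complex.exp (p.2 * Complex.I))⁻¹ := by
            ring
        _ = deriv γ p.1 := by
            rw [hang]
            field_simp)
    have hsub : Metric.ball p.1 r' ⊆ Metric.ball p.1 r := Metric.ball_subset_ball hrr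
    refine ⟨{y | y.1 ∈ Metric.ball p.1 r'}, fun y => (γ y.1, y.2 + τ y.1),
      Metric.isOpen_ball.preimage continuous_fst, Metric.mem_ball_self hr', fun y hy => hb (hsub hy),
      hsm, ?_, fun y hy => ?_⟩
    · refine Prod.ext hγ ?_
      simp only [hτ0]
      ring
    · have hy' : y.1 ∈ Metric.ball p.1 r' := hy
      have hyΩ : y ∈ YO Ω := hb (hsub hy')
      have hA : ((γ y.1, y.2 + τ y.1) : Y) ∈ YO Ω := (hloc y.1 (hsub hy')).1
      refine ⟨hA, ?_, hcurv y.1 (hsub hy'), hfr y hy'⟩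
      refine ((hT.rel y hyΩ _ hA).2 ⟨r' - dist y.1 p.1, γ, ?_, ?_, ?_, rfl, ?_, ?_⟩).symm
      · rw [Metric.mem_ball] at hy'
        linarith
      · intro w hw
        rw [Metric.mem_ball] at hw
        refine hb (hsub ?_)
        rw [Metric.mem_ball]
        linarith [dist_triangle w y.1 p.1]
      · refine hd.mono fun w hw => ?_
        rw [Metric.mem_ball] at hw
        refine hsub ?_
        rw [Metric.mem_ball]
        linarith [dist_triangle w y.1 p.1]
      · intro w hw
        rw [Metric.mem_ball] at hw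
        refine hloc w (hsub ?_)
        rw [Metric.mem_ball]
        linarith [dist_triangle w y.1 p.1]
      · have e1 := hτ y.1 hy'
        have e2 : Complex.exp (((y.2 + τ y.1 : ℝ) : ℂ) * Complex.I) =
            Complex.exp (y.2 * Complex.I) * Complex.exp (τ y.1 * Complex.I) := by
          rw [← Complex.exp_add]
          congr 1
          push_cast; ring
        show Complex.exp (((y.2 + τ y.1 : ℝ) : ℂ) * Complex.I) * ‖deriv γ y.1‖ = _
        rw [e2, mul_assoc, e1]

end Pool.Agent.Y257.EG2
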