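import Pool.Agent.Y262.EG.Stm

set_option autoImplicit false

open Set Filter Topology MeasureTheory
open scoped ContDiff

namespace Pool.Agent.Y257.EG2
open Pool.Agent.Y262.EG

/-- coordinates -/
noncomputable def eY : Y ≃ₗ[ℝ] (Fin 3 → ℝ) where
  toFun p := ![p.1.re, p.1.im, p.2]
  map_add' p q := by
    funext i; fin_cases i <;> simp
  map_smul' r p := by
    funext i; fin_cases i <;> simp
  invFun w := ((⟨w 0, w 1⟩ : ℂ), w 2)
  left_inv p := by
    apply Prod.ext
    · apply Complex.ext <;> simp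
    · simp
  right_inv w := by
    funext i; fin_cases i <;> simp

lemma det3 (L : Y →ₗ[ℝ] Y) : LinearMap.det L =
    (L (1, 0)).1.re * ((L (Complex.I, 0)).1.im * (L (0, 1)).2 -
      (L (Complex.I, 0)).2 * (L (0, 1)).1.im) -
    (L (Complex.I, 0)).1.re * ((L (1, 0)).1.im * (L (0, 1)).2 - (L (1, 0)).2 * (L (0, 1)).1.im) +
    (L (0, 1)).1.re * ((L (1, 0)).1.im * (L (Complex.I, 0)).2 -
      (L (1, 0)).2 * (L (Complex.I, 0)).1.im) := by
  let b : Module.Basis (Fin 3) ℝ Y := Module.Basis.ofEquivFun eY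
  have b0 : b 0 = ((1, 0) : Y) := by
    rw [Module.Basis.coe_ofEquivFun]
    apply Prod.ext
    · apply Complex.ext <;> simp [eY]
    · simp [eY]
  have b1 : b 1 = ((Complex.I, 0) : Y) := by
    rw [Module.Basis.coe_ofEquivFun]
    apply Prod.ext
    · apply Complex.ext <;> simp [eY]
    · simp [eY]
  have b2 : b 2 = ((0, 1) : Y) := by
    rw [Module.Basis.coe_ofEquivFun]
    apply Prod.ext
    · apply Complex.ext <;> simp [eY]
    · simp [eY]
  have hr : ∀ (y : Y) (i : Fin 3), b.repr y i = eY y i := by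
    intro y i
    simp [b]
  rw [← LinearMap.det_toMatrix b, Matrix.det_fin_three]
  simp only [LinearMap.toMatrix_apply, hr, b0, b1, b2]
  simp [eY]
  ring

/-- the endomorphism of the frame -/
noncomputable def fr (x h v : Y) : Y →ₗ[ℝ] Y where
  toFun y := y.1.re • x + y.1.im • h + y.2 • v
  map_add' p q := by
    simp only [Prod.fst_add, Prod.snd_add, Complex.add_re, Complex.add_im, add_smul]
    abel
  map_smul' r p := by
    simp only [Prod.smul_fst, Prod.smul_snd, Complex.real_smul, Complex.mul_re, Complex.ofReal_re,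
      Complex.ofReal_im, Complex.mul_im, zero_mul, sub_zero, add_zero, smul_eq_mul,
      RingHom.id_apply, smul_add, mul_smul]

lemma fr1 (x h v : Y) : fr x h v (1, 0) = x ∧ fr x h v (Complex.I, 0) = h ∧
    fr x h v (0, 1) = v := by
  refine ⟨?_, ?_, ?_⟩ <;> simp [fr]

lemma wron {k c c1 s s1 : ℝ → ℝ} (h : Jac k c c1 s s1) (t : ℝ) : c t * s1 t - c1 t * s t = 1 := by
  have hd : ∀ t, HasDerivAt (fun t => c t * s1 t - c1 t * s t) 0 t := by
    intro t
    have := ((h.dc t).fun_mul (h.ds1 t)).fun_sub ((h.dc1 t).fun_mul (h.ds t))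
    refine this.congr_deriv ?_
    ring
  have h1 := is_const_of_deriv_eq_zero (fun t => (hd t).differentiableAt) (fun t => (hd t).deriv) t 0
  rw [h1, h.c0, h.s10, h.c10, h.s0]
  ring

lemma det_flow {Ω : Set ℂ} {φ : ℂ → ℝ} {Fl : ℝ → Y → Y} {c c1 s s1 : ℝ → Y → ℝ}
    (hC : Coc Ω φ Fl c c1 s s1) (t : ℝ) {p : Y} (hp : p ∈ YO Ω) :
    LinearMap.det ((fderiv ℝ (Fl t) p : Y →L[ℝ] Y) : Y →ₗ[ℝ] Y) =
      Real.exp (2 * φ p.1 - 2 * φ (Fl t p).1) := by
  set F : Y →ₗ[ℝ] Y := ((fderiv ℝ (Fl t) p : Y →L[ℝ] Y) : Y →ₗ[ℝ] Y) with hF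
  have hA : LinearMap.det (fr (XX φ p) (HH φ p) VV) = Real.exp (-(2 * φ p.1)) := by
    obtain ⟨e1, e2, e3⟩ := fr1 (XX φ p) (HH φ p) VV
    rw [det3, e1, e2, e3]
    simp only [XX, HH, VV]
    have e4 : Real.exp (-(2 * φ p.1)) = Real.exp (-φ p.1) * Real.exp (-φ p.1) := by
      rw [← Real.exp_add]; congr 1; ring
    rw [e4]
    simp only [Complex.zero_re, Complex.zero_im]
    have := Real.sin_sq_add_cos_sq p.2
    linear_combination (Real.exp (-φ p.1) * Real.exp (-φ p.1)) * this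
  have hFA : LinearMap.det (F ∘ₗ fr (XX φ p) (HH φ p) VV) = Real.exp (-(2 * φ (Fl t p).1)) := by
    obtain ⟨e1, e2, e3⟩ := fr1 (XX φ p) (HH φ p) VV
    rw [det3]
    simp only [LinearMap.comp_apply, e1, e2, e3]
    have g1 : F (XX φ p) = XX φ (Fl t p) := hC.X t p hp
    have g2 : F (HH φ p) = c t p • HH φ (Fl t p) + c1 t p • VV := hC.H t p hp
    have g3 : F VV = s t p • HH φ (Fl t p) + s1 t p • VV := hC.V t p hp
    rw [g1, g2, g3]
    have hw : c t p * s1 t p - c1 t p * s t p = 1 := wron (hC.jac p hp) t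
    have e4 : Real.exp (-(2 * φ (Fl t p).1)) =
        Real.exp (-φ (Fl t p).1) * Real.exp (-φ (Fl t p).1) := by
      rw [← Real.exp_add]; congr 1; ring
    rw [e4]
    have hsc := Real.sin_sq_add_cos_sq (Fl t p).2
    simp only [XX, HH, VV, Prod.fst_add, Prod.snd_add, Prod.smul_fst, Prod.smul_snd,
      Complex.add_re, Complex.add_im, Complex.real_smul, Complex.mul_re, Complex.mul_im,
      Complex.ofReal_re, Complex.ofReal_im, smul_eq_mul, Complex.zero_re, Complex.zero_im]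
    set E := Real.exp (-φ (Fl t p).1)
    set C := Real.cos (Fl t p).2
    set S := Real.sin (Fl t p).2
    linear_combination (E ^ 2 * (c t p * s1 t p - c1 t p * s t p)) * hsc + E ^ 2 * hw
  rw [LinearMap.det_comp, hA] at hFA
  have h0 : Real.exp (-(2 * φ p.1)) ≠ 0 := (Real.exp_pos _).ne'
  have h1 : LinearMap.det F = Real.exp (-(2 * φ (Fl t p).1)) / Real.exp (-(2 * φ p.1)) := by
    rw [eq_div_iff h0]; exact hFA
  rw [h1, ← Real.exp_sub]
  congr 1
  ring

theorem liouUp : StUniq → StFrame → StCoc → StLiouUp := by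
  intro hU _ hCoc Ω φ Fl hΩ hφ hG t B hB hBO
  obtain ⟨c, c1, s, s1, hC⟩ := hCoc Ω φ Fl hΩ hφ hG
  have hYO : IsOpen (YO Ω) := hΩ.preimage continuous_fst
  haveI : (volume : Measure Y).IsAddHaarMeasure := by
    rw [Measure.volume_eq_prod]; infer_instance
  have hgrp := (hU Ω φ hΩ hφ).2 Fl hG
  have hinj : InjOn (Fl t) B := by
    intro p hp p' hp' h
    have e1 := hgrp (-t) t p (hBO hp)
    have e2 := hgrp (-t) t p' (hBO hp')
    rw [neg_add_cancel, hG.zero _ (hBO hp)] at e1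
    rw [neg_add_cancel, hG.zero _ (hBO hp')] at e2
    rw [e1, e2, h]
  have hdiff : ∀ p ∈ YO Ω, DifferentiableAt ℝ (Fl t) p := by
    intro p hp
    have hopen : IsOpen {a : ℝ × Y | a.2 ∈ YO Ω} := hYO.preimage continuous_snd
    have h1 : ContDiffAt ℝ ∞ (fun a : ℝ × Y => Fl a.1 a.2) (t, p) :=
      hG.smooth.contDiffAt (hopen.mem_nhds hp)
    have h2 : ContDiffAt ℝ ∞ (fun y : Y => ((t, y) : ℝ × Y)) p := contDiffAt_const.prodMk contDiffAt_id
    have h3 : ContDiffAt ℝ ∞ (fun y : Y => Fl t y) p := h1.comp p h2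
    exact h3.differentiableAt (by simp)
  refine ⟨hB.image_of_continuousOn_injOn (fun p hp =>
    (hdiff p (hBO hp)).continuousAt.continuousWithinAt) hinj, ?_⟩
  rw [lintegral_image_eq_lintegral_abs_det_fderiv_mul volume hB
    (fun p hp => (hdiff p (hBO hp)).hasFDerivAt.hasFDerivWithinAt) hinj]
  refine setLIntegral_congr_fun hB fun p hp => ?_
  have hd : (fderiv ℝ (Fl t) p).det = Real.exp (2 * φ p.1 - 2 * φ (Fl t p).1) :=
    det_flow hC t (hBO hp)
  rw [hd, abs_of_pos (Real.exp_pos _), ← ENNReal.ofReal_mul (Real.exp_pos _).le, ← Real.exp_add]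
  congr 2
  ring

end Pool.Agent.Y257.EG2
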